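import Pool.Agent.EVF.StmtsR

/-! EVF row SQF: no square divisors in a long range. -/

set_option autoImplicit false

namespace Pool.Agent.EVF.H65

open Pool.Agent.EVF

theorem PB_finite (H : ℕ) : (PB H).Finite := by
  refine ((Set.finite_Icc (-(H : ℤ)) H).prod (Set.finite_Icc (-(H : ℤ)) H)).subset ?_
  rintro ⟨a, b⟩ ⟨-, ha, hb⟩
  exact ⟨abs_le.1 ha, abs_le.1 hb⟩

/-- first term -/
theorem term_one {H d ε δ : ℝ} (hH : 1 ≤ H) (hε : ε ≤ 1 / 8) (h1 : 1 ≤ d)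
    (hd : H ^ δ < d) : d ^ ε * (H ^ 2 / d ^ 2) ≤ H ^ (2 - δ / 2) * d ^ (-(11 / 8) : ℝ) := by
  have hH0 : 0 < H := by linarith
  have hd0 : 0 < d := by linarith
  have e1 : d ^ ε * (H ^ 2 / d ^ 2) = H ^ (2 : ℝ) * d ^ (ε - 2) := by
    rw [Real.rpow_sub hd0, Real.rpow_two, Real.rpow_two]
    ring
  have e2 : d ^ (ε - 2) ≤ d ^ (-(1 / 2) : ℝ) * d ^ (-(11 / 8) : ℝ) := by
    rw [← Real.rpow_add hd0]
    apply Real.rpow_le_rpow_of_exponent_le h1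
    linarith
  have e3 : d ^ (-(1 / 2) : ℝ) ≤ H ^ (-(δ / 2)) := by
    have h3 : H ^ (-(δ / 2)) = (H ^ δ) ^ (-(1 / 2) : ℝ) := by
      rw [← Real.rpow_mul hH0.le]
      congr 1
      ring
    rw [h3]
    exact Real.rpow_le_rpow_of_nonpos (Real.rpow_pos_of_pos hH0 _) hd.le (by norm_num)
  have e4 : H ^ (2 - δ / 2) = H ^ (2 : ℝ) * H ^ (-(δ / 2)) := by
    rw [← Real.rpow_add hH0]
    congr 1
  have p1 : 0 ≤ H ^ (2 : ℝ) := Real.rpow_nonneg hH0.le _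
  have p2 : 0 ≤ d ^ (-(11 / 8) : ℝ) := Real.rpow_nonneg hd0.le _
  rw [e1, e4]
  calc H ^ (2 : ℝ) * d ^ (ε - 2) ≤ H ^ (2 : ℝ) * (d ^ (-(1 / 2) : ℝ) * d ^ (-(11 / 8) : ℝ)) :=
        mul_le_mul_of_nonneg_left e2 p1
    _ ≤ H ^ (2 : ℝ) * (H ^ (-(δ / 2)) * d ^ (-(11 / 8) : ℝ)) :=
        mul_le_mul_of_nonneg_left (mul_le_mul_of_nonneg_right e3 p2) p1
    _ = H ^ (2 : ℝ) * H ^ (-(δ / 2)) * d ^ (-(11 / 8) : ℝ) := by ring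

/-- second term -/
theorem term_two {H d ε δ : ℝ} (hH : 1 ≤ H) (hε : 0 < ε) (hδ : 0 < δ) (h1 : 1 ≤ d)
    (hd : d ≤ H ^ (2 - δ)) : d ^ ε * (1 + Real.log H) ≤ (1 + 1 / ε) * H ^ (3 * ε) := by
  have hH0 : 0 < H := by linarith
  have hd0 : 0 < d := by linarith
  have e1 : d ^ ε ≤ H ^ (2 * ε) := by
    calc d ^ ε ≤ (H ^ (2 - δ)) ^ ε := Real.rpow_le_rpow hd0.le hd hε.le
      _ = H ^ ((2 - δ) * ε) := by rw [← Real.rpow_mul hH0.le]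
      _ ≤ H ^ (2 * ε) := by
        apply Real.rpow_le_rpow_of_exponent_le hH
        nlinarith
  have e2 : 1 + Real.log H ≤ (1 + 1 / ε) * H ^ ε := by
    have h2 := Real.log_le_rpow_div hH0.le hε
    have h3 : 1 ≤ H ^ ε := Real.one_le_rpow hH hε.le
    have h4 : H ^ ε / ε = 1 / ε * H ^ ε := by ring
    rw [h4] at h2
    linarith
  have h5 : 0 ≤ 1 + Real.log H := by
    have := Real.log_nonneg hH
    linarith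
  have h6 : H ^ (3 * ε) = H ^ (2 * ε) * H ^ ε := by
    rw [← Real.rpow_add hH0]
    congr 1
    ring
  rw [h6]
  calc d ^ ε * (1 + Real.log H) ≤ H ^ (2 * ε) * ((1 + 1 / ε) * H ^ ε) :=
        mul_le_mul e1 e2 h5 (Real.rpow_nonneg hH0.le _)
    _ = (1 + 1 / ε) * (H ^ (2 * ε) * H ^ ε) := by ring

theorem sqf (hP : PriStmt) : SqfStmt := by
  classical
  intro φ s K hs hK hcls δ hδ hδ1
  obtain ⟨C, hC, hPri⟩ := hP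
  have hε : 0 < δ / 8 := by linarith
  obtain ⟨C1, hC1, hdom⟩ := Pool.Agent.RAD.H79.dom_real s (δ / 8) hε
  have hsum : Summable (fun n : ℕ => (n : ℝ) ^ (-(11 / 8) : ℝ)) :=
    Real.summable_nat_rpow.2 (by norm_num)
  have hC1' : 0 ≤ C1 := by linarith
  refine ⟨C1 * C * ((∑' n : ℕ, (n : ℝ) ^ (-(11 / 8) : ℝ)) + (1 + 1 / (δ / 8))), δ / 2,
    by linarith, fun H hH => ?_⟩
  have hH1 : (1 : ℝ) ≤ H := by exact_mod_cast hH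
  have hH0 : (0 : ℝ) < H := by linarith
  -- the classes
  have hS : ∀ d : ℕ, ∃ S : Finset ℤ, 1 ≤ d → Nat.Coprime d K →
      (S.card : ℝ) ≤ C1 * (d : ℝ) ^ (δ / 8) ∧
      ∀ a b : ℤ, IsCoprime a b → (d : ℤ) ^ 2 ∣ bv φ a b → ∃ t ∈ S, ((d ^ 2 : ℕ) : ℤ) ∣ a - t * b := by
    intro d
    by_cases hd : 1 ≤ d ∧ Nat.Coprime d K
    · obtain ⟨S, hS1, hS2⟩ := hcls (d ^ 2) (Nat.one_le_pow _ _ hd.1) (hd.2.pow_left 2)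
      refine ⟨S, fun _ _ => ⟨?_, ?_⟩⟩
      · rw [Nat.primeFactors_pow d two_ne_zero] at hS1
        have h2 : (S.card : ℝ) ≤ (s : ℝ) ^ d.primeFactors.card := by exact_mod_cast hS1
        exact h2.trans (hdom d (by omega))
      · intro a b hab hdv
        exact hS2 a b hab (by push_cast; exact hdv)
    · exact ⟨∅, fun h1 h2 => absurd ⟨h1, h2⟩ hd⟩
  choose S hS using hS
  -- the range
  obtain ⟨D, hD⟩ : ∃ D : Finset ℕ, ∀ d, d ∈ D ↔ (1 ≤ d ∧ d ≤ ⌊(H : ℝ) ^ (2 - δ)⌋₊) ∧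
      (H : ℝ) ^ δ < d ∧ Nat.Coprime d K :=
    ⟨(Finset.Icc 1 ⌊(H : ℝ) ^ (2 - δ)⌋₊).filter (fun d => (H : ℝ) ^ δ < d ∧ Nat.Coprime d K),
      fun d => by rw [Finset.mem_filter, Finset.mem_Icc]⟩
  have hDcard : (D.card : ℝ) ≤ (H : ℝ) ^ (2 - δ) := by
    have h2 : D.card ≤ ⌊(H : ℝ) ^ (2 - δ)⌋₊ := by
      have h3 : D ⊆ Finset.Icc 1 ⌊(H : ℝ) ^ (2 - δ)⌋₊ := fun d hd => by
        rw [Finset.mem_Icc]
        exact ((hD d).1 hd).1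
      have h4 := Finset.card_le_card h3
      rwa [Nat.card_Icc, Nat.add_sub_cancel] at h4
    exact (Nat.cast_le.2 h2).trans (Nat.floor_le (Real.rpow_nonneg hH0.le _))
  have hsub : {x : ℤ × ℤ | x ∈ PB H ∧ ∃ d : ℕ, (H : ℝ) ^ δ < d ∧ (d : ℝ) ≤ (H : ℝ) ^ (2 - δ) ∧
      Nat.Coprime d K ∧ (d : ℤ) ^ 2 ∣ bv φ x.1 x.2} ⊆
      ⋃ d ∈ D, ⋃ t ∈ S d, {x : ℤ × ℤ | x ∈ PB H ∧ ((d ^ 2 : ℕ) : ℤ) ∣ x.1 - t * x.2} := by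
    rintro x ⟨hx, d, hd1, hd2, hd3, hd4⟩
    have hd0 : 1 ≤ d := by
      have h2 : (1 : ℝ) ≤ (H : ℝ) ^ δ := Real.one_le_rpow hH1 hδ.le
      have h3 : (1 : ℝ) < d := lt_of_le_of_lt h2 hd1
      have h4 : 1 < d := by exact_mod_cast h3
      omega
    obtain ⟨t, ht1, ht2⟩ := (hS d hd0 hd3).2 x.1 x.2 hx.1 hd4
    exact Set.mem_iUnion₂.2 ⟨d, (hD d).2 ⟨⟨hd0, Nat.le_floor hd2⟩, hd1, hd3⟩,
      Set.mem_iUnion₂.2 ⟨t, ht1, hx, ht2⟩⟩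
  have hfin : (⋃ d ∈ D, ⋃ t ∈ S d, {x : ℤ × ℤ | x ∈ PB H ∧
      ((d ^ 2 : ℕ) : ℤ) ∣ x.1 - t * x.2}).Finite := by
    refine (PB_finite H).subset ?_
    intro x hx
    obtain ⟨d, -, hx⟩ := Set.mem_iUnion₂.1 hx
    obtain ⟨t, -, hx⟩ := Set.mem_iUnion₂.1 hx
    exact hx.1
  have h1 := Set.ncard_le_ncard hsub hfin
  have h2 : (⋃ d ∈ D, ⋃ t ∈ S d, {x : ℤ × ℤ | x ∈ PB H ∧
      ((d ^ 2 : ℕ) : ℤ) ∣ x.1 - t * x.2}).ncard ≤ ∑ d ∈ D, ∑ t ∈ S d,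
      {x : ℤ × ℤ | x ∈ PB H ∧ ((d ^ 2 : ℕ) : ℤ) ∣ x.1 - t * x.2}.ncard :=
    (Finset.set_ncard_biUnion_le _ _).trans
      (Finset.sum_le_sum fun d _ => Finset.set_ncard_biUnion_le _ _)
  have h3 := h1.trans h2
  have h4 : ({x : ℤ × ℤ | x ∈ PB H ∧ ∃ d : ℕ, (H : ℝ) ^ δ < d ∧ (d : ℝ) ≤ (H : ℝ) ^ (2 - δ) ∧
      Nat.Coprime d K ∧ (d : ℤ) ^ 2 ∣ bv φ x.1 x.2}.ncard : ℝ) ≤ ∑ d ∈ D, ∑ t ∈ S d,
      ({x : ℤ × ℤ | x ∈ PB H ∧ ((d ^ 2 : ℕ) : ℤ) ∣ x.1 - t * x.2}.ncard : ℝ) := by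
    exact_mod_cast h3
  refine h4.trans ?_
  -- the sum for one `d`
  have h5 : ∀ d ∈ D, ∑ t ∈ S d,
      ({x : ℤ × ℤ | x ∈ PB H ∧ ((d ^ 2 : ℕ) : ℤ) ∣ x.1 - t * x.2}.ncard : ℝ) ≤
      C1 * C * ((H : ℝ) ^ (2 - δ / 2) * (d : ℝ) ^ (-(11 / 8) : ℝ) +
        (1 + 1 / (δ / 8)) * (H : ℝ) ^ (3 * (δ / 8))) := by
    intro d hd
    obtain ⟨⟨hd1, hd2⟩, hd3, hd4⟩ := (hD d).1 hd
    have hd1' : (1 : ℝ) ≤ d := by exact_mod_cast hd1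
    have hd2' : (d : ℝ) ≤ (H : ℝ) ^ (2 - δ) :=
      (Nat.cast_le.2 hd2).trans (Nat.floor_le (Real.rpow_nonneg hH0.le _))
    have h6 : ∀ t ∈ S d, ({x : ℤ × ℤ | x ∈ PB H ∧
        ((d ^ 2 : ℕ) : ℤ) ∣ x.1 - t * x.2}.ncard : ℝ) ≤
        C * ((H : ℝ) ^ 2 / (d : ℝ) ^ 2 + 1 + Real.log H) := by
      intro t _
      have h7 := hPri (d ^ 2) t H (Nat.one_le_pow _ _ hd1) hH
      rw [Nat.cast_pow] at h7
      simpa using h7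
    refine (Finset.sum_le_sum h6).trans ?_
    rw [Finset.sum_const, nsmul_eq_mul]
    have h8 := (hS d hd1 hd4).1
    have h9 : 0 ≤ Real.log H := Real.log_nonneg hH1
    have h10 : 0 ≤ C * ((H : ℝ) ^ 2 / (d : ℝ) ^ 2 + 1 + Real.log H) := by positivity
    refine (mul_le_mul_of_nonneg_right h8 h10).trans ?_
    have h11 := term_one (ε := δ / 8) (δ := δ) hH1 (by linarith) hd1' hd3
    have h12 := term_two (ε := δ / 8) (δ := δ) hH1 hε hδ hd1' hd2'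
    have h13 : C1 * (d : ℝ) ^ (δ / 8) * (C * ((H : ℝ) ^ 2 / (d : ℝ) ^ 2 + 1 + Real.log H)) =
        C1 * C * ((d : ℝ) ^ (δ / 8) * ((H : ℝ) ^ 2 / (d : ℝ) ^ 2) +
          (d : ℝ) ^ (δ / 8) * (1 + Real.log H)) := by ring
    rw [h13]
    exact mul_le_mul_of_nonneg_left (add_le_add h11 h12) (mul_nonneg hC1' hC.le)
  refine (Finset.sum_le_sum h5).trans ?_
  rw [← Finset.mul_sum, mul_assoc (C1 * C)]
  apply mul_le_mul_of_nonneg_left _ (mul_nonneg hC1' hC.le)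
  rw [Finset.sum_add_distrib, ← Finset.mul_sum, Finset.sum_const, nsmul_eq_mul]
  have h14 : ∑ d ∈ D, (d : ℝ) ^ (-(11 / 8) : ℝ) ≤ ∑' n : ℕ, (n : ℝ) ^ (-(11 / 8) : ℝ) :=
    hsum.sum_le_tsum D (fun n _ => Real.rpow_nonneg (Nat.cast_nonneg n) _)
  have h15 : (0 : ℝ) ≤ (H : ℝ) ^ (2 - δ / 2) := Real.rpow_nonneg hH0.le _
  refine (add_le_add (b := (∑' n : ℕ, (n : ℝ) ^ (-(11 / 8) : ℝ)) * (H : ℝ) ^ (2 - δ / 2))
    (d := (1 + 1 / (δ / 8)) * (H : ℝ) ^ (2 - δ / 2)) ?_ ?_).trans_eq (add_mul _ _ _).symm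
  · rw [mul_comm]
    exact mul_le_mul_of_nonneg_right h14 h15
  · have h16 : (H : ℝ) ^ (2 - δ) * (H : ℝ) ^ (3 * (δ / 8)) ≤ (H : ℝ) ^ (2 - δ / 2) := by
      rw [← Real.rpow_add hH0]
      apply Real.rpow_le_rpow_of_exponent_le hH1
      linarith
    have h17 : (0 : ℝ) ≤ 1 + 1 / (δ / 8) := by positivity
    have h18 : (0 : ℝ) ≤ (H : ℝ) ^ (3 * (δ / 8)) := Real.rpow_nonneg hH0.le _
    calc (D.card : ℝ) * ((1 + 1 / (δ / 8)) * (H : ℝ) ^ (3 * (δ / 8))) =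
        (1 + 1 / (δ / 8)) * ((D.card : ℝ) * (H : ℝ) ^ (3 * (δ / 8))) := by ring
      _ ≤ (1 + 1 / (δ / 8)) * ((H : ℝ) ^ (2 - δ) * (H : ℝ) ^ (3 * (δ / 8))) :=
        mul_le_mul_of_nonneg_left (mul_le_mul_of_nonneg_right hDcard h18) h17
      _ ≤ (1 + 1 / (δ / 8)) * (H : ℝ) ^ (2 - δ / 2) := mul_le_mul_of_nonneg_left h16 h17

end Pool.Agent.EVF.H65
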